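import Pool.Agent.W890.SF.Stm

/-!
# SAM, part EXT: greedy extension of a matching
-/

set_option autoImplicit false

namespace Pool.Agent.W392.SAM.Ext

open Finset Pool.Agent.W890.SF

theorem count {V : Type} [Fintype V] [DecidableEq V] (F : Finset (Finset V)) (k : ℕ)
    (hk : 1 ≤ k) (hF : Unif k F) (v : V) (X : Finset V) (hvX : v ∉ X)
    (hmeet : ∀ e ∈ F, v ∈ e → ¬ Disjoint e X) :
    dg F v + (Fintype.card V - 1 - X.card).choose (k - 1) ≤ (Fintype.card V - 1).choose (k - 1) := by
  classical
  have hXs : X ⊆ univ.erase v := by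
    intro x hx
    rw [mem_erase]
    exact ⟨fun h => hvX (h ▸ hx), mem_univ x⟩
  have hP1 : (powersetCard (k - 1) ((univ : Finset V).erase v)).card =
      (Fintype.card V - 1).choose (k - 1) := by
    rw [card_powersetCard, card_erase_of_mem (mem_univ v), card_univ]
  have hP2 : (powersetCard (k - 1) ((univ : Finset V).erase v \ X)).card =
      (Fintype.card V - 1 - X.card).choose (k - 1) := by
    rw [card_powersetCard, card_sdiff_of_subset hXs, card_erase_of_mem (mem_univ v), card_univ]
  have hE : ((F.filter (fun e => v ∈ e)).image (fun e => e.erase v)).card = dg F v := by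
    unfold dg
    apply card_image_of_injOn
    intro e he e' he' h
    have h1 : v ∈ e := (mem_filter.mp (mem_coe.mp he)).2
    have h2 : v ∈ e' := (mem_filter.mp (mem_coe.mp he')).2
    have h3 : e.erase v = e'.erase v := h
    rw [← insert_erase h1, ← insert_erase h2, h3]
  rw [← hP1, ← hP2, ← hE, ← card_union_of_disjoint]
  · apply card_le_card
    intro S hS
    rcases mem_union.mp hS with hS | hS
    · obtain ⟨e, he, rfl⟩ := mem_image.mp hS
      obtain ⟨heF, hve⟩ := mem_filter.mp he
      rw [mem_powersetCard]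
      refine ⟨erase_subset_erase v (subset_univ e), ?_⟩
      rw [card_erase_of_mem hve, hF e heF]
    · rw [mem_powersetCard] at hS ⊢
      exact ⟨hS.1.trans sdiff_subset, hS.2⟩
  · rw [disjoint_left]
    intro S hS hS2
    obtain ⟨e, he, rfl⟩ := mem_image.mp hS
    obtain ⟨heF, hve⟩ := mem_filter.mp he
    apply hmeet e heF hve
    rw [disjoint_left]
    intro x hx hxX
    have hxv : x ≠ v := fun h => hvX (h ▸ hxX)
    have h1 : x ∈ e.erase v := mem_erase.mpr ⟨hxv, hx⟩
    have h2 := (mem_powersetCard.mp hS2).1 h1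
    exact (mem_sdiff.mp h2).2 hxX

theorem numeric (k : ℕ) (hk : 2 ≤ k) (ξ : ℝ) (hξ : 0 < ξ) (n : ℕ) (hn : 2 * k / ξ ≤ (n : ℝ))
    (x : ℕ) (hx : (x : ℝ) + 1 ≤ (1 - ξ) * n) :
    ((ξ / 2) ^ (k - 1) / 2) * (((n - 1).choose (k - 1) : ℕ) : ℝ) <
      (((n - 1 - x).choose (k - 1) : ℕ) : ℝ) := by
  obtain ⟨r, rfl⟩ : ∃ r, k = r + 1 := ⟨k - 1, by omega⟩
  have hr : r + 1 - 1 = r := by omega
  rw [hr]
  have hnξ : 2 * ((r + 1 : ℕ) : ℝ) ≤ ξ * n := by
    rw [div_le_iff₀ hξ] at hn
    linarith
  push_cast at hnξ
  have hr0 : (0 : ℝ) ≤ r := Nat.cast_nonneg r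
  have hn0 : (0 : ℝ) < n := by
    by_contra h
    push Not at h
    nlinarith
  have hxn : x + 1 ≤ n := by
    have h1 : (x : ℝ) + 1 ≤ n := by nlinarith
    exact_mod_cast h1
  have hN : ξ * n ≤ ((n - 1 - x : ℕ) : ℝ) := by
    have h1 : ((n - 1 - x : ℕ) : ℝ) = (n : ℝ) - 1 - x := by
      rw [Nat.cast_sub (by omega), Nat.cast_sub (by omega)]
      push_cast
      ring
    rw [h1]
    linarith
  set N := n - 1 - x with hNdef
  have hrN : r ≤ N := by
    have h1 : (r : ℝ) ≤ N := by linarith
    exact_mod_cast h1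
  have hf : (0 : ℝ) < (r.factorial : ℝ) := by exact_mod_cast r.factorial_pos
  have h1 : (((n - 1).choose r : ℕ) : ℝ) * (r.factorial : ℝ) ≤ (n : ℝ) ^ r := by
    have h2 : (n - 1).choose r * r.factorial ≤ n ^ r := by
      rw [mul_comm, ← Nat.descFactorial_eq_factorial_mul_choose]
      exact (Nat.descFactorial_le_pow _ _).trans (Nat.pow_le_pow_left (Nat.sub_le _ _) _)
    exact_mod_cast h2
  have h3 : (ξ / 2 * n) ^ r ≤ ((N.choose r : ℕ) : ℝ) * (r.factorial : ℝ) := by
    have h4 : (N + 1 - r) ^ r ≤ N.choose r * r.factorial := by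
      rw [mul_comm, ← Nat.descFactorial_eq_factorial_mul_choose]
      exact Nat.pow_sub_le_descFactorial _ _
    have h5 : (((N + 1 - r) ^ r : ℕ) : ℝ) ≤ ((N.choose r * r.factorial : ℕ) : ℝ) := by
      exact_mod_cast h4
    push_cast at h5
    refine le_trans (pow_le_pow_left₀ (by positivity) ?_ r) h5
    rw [Nat.cast_sub (by omega)]
    push_cast
    nlinarith
  have h6 : (ξ / 2) ^ r / 2 * (n : ℝ) ^ r < (ξ / 2 * n) ^ r := by
    rw [mul_pow]
    have h7 : 0 < (ξ / 2) ^ r * (n : ℝ) ^ r := by positivity
    linarith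
  have h8 : ((ξ / 2) ^ r / 2 * (((n - 1).choose r : ℕ) : ℝ)) * (r.factorial : ℝ) <
      ((N.choose r : ℕ) : ℝ) * (r.factorial : ℝ) := by
    calc ((ξ / 2) ^ r / 2 * (((n - 1).choose r : ℕ) : ℝ)) * (r.factorial : ℝ)
        = (ξ / 2) ^ r / 2 * ((((n - 1).choose r : ℕ) : ℝ) * (r.factorial : ℝ)) := by ring
      _ ≤ (ξ / 2) ^ r / 2 * (n : ℝ) ^ r := mul_le_mul_of_nonneg_left h1 (by positivity)
      _ < (ξ / 2 * n) ^ r := h6
      _ ≤ _ := h3
  exact lt_of_mul_lt_mul_right h8 hf.le

theorem ext : S_EXT := by
  intro k hk ξ hξ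
  refine ⟨(ξ / 2) ^ (k - 1) / 2, by positivity, ⌈2 * (k : ℝ) / ξ⌉₊, ?_⟩
  intro V _ _ hn F hF A hA
  classical
  have hn' : 2 * (k : ℝ) / ξ ≤ (Fintype.card V : ℝ) :=
    le_trans (Nat.le_ceil _) (by exact_mod_cast hn)
  have hk1 : 1 ≤ k := by omega
  have hkR : (1 : ℝ) ≤ k := by exact_mod_cast hk1
  -- generalised statement
  have key : ∀ a : ℕ, ∀ A' ⊆ A, A'.card = a → ∀ M' ⊆ F, Mtch M' → (∀ e ∈ M', Disjoint e A') →
      (k : ℝ) * (A'.card + M'.card) ≤ (1 - ξ) * (Fintype.card V : ℝ) →
      HasM F (A'.card + M'.card) := by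
    intro a
    induction a with
    | zero =>
      intro A' _ hcard M' hM' hMt _ _
      refine ⟨M', hM', hMt, ?_⟩
      rw [hcard, zero_add]
    | succ a ih =>
      intro A' hA' hcard M' hM' hMt hdis hbound
      obtain ⟨v, hv⟩ : A'.Nonempty := card_pos.mp (by omega)
      set X : Finset V := M'.biUnion id ∪ A'.erase v with hX
      have hvX : v ∉ X := by
        rw [hX, mem_union, mem_biUnion]
        rintro (⟨e, he, hve⟩ | h)
        · exact (disjoint_left.mp (hdis e he)) hve hv
        · exact (notMem_erase v A') h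
      have hXcard : (X.card : ℝ) + 1 ≤ (1 - ξ) * (Fintype.card V : ℝ) := by
        have h1 : X.card ≤ M'.card * k + (A'.card - 1) := by
          rw [hX]
          refine (card_union_le _ _).trans ?_
          rw [card_erase_of_mem hv]
          apply Nat.add_le_add_right
          apply card_biUnion_le_card_mul
          intro e he
          exact (hF e (hM' he)).le
        have h2 : (X.card : ℝ) + 1 ≤ (M'.card : ℝ) * k + A'.card := by
          have h3 : X.card + 1 ≤ M'.card * k + A'.card := by omega
          exact_mod_cast h3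
        have h4 : (0 : ℝ) ≤ A'.card := Nat.cast_nonneg _
        nlinarith
      obtain ⟨e, heF, hve, heX⟩ : ∃ e ∈ F, v ∈ e ∧ Disjoint e X := by
        by_contra hcon
        push Not at hcon
        have h1 := count F k hk1 hF v X hvX hcon
        have h2 := numeric k hk ξ hξ (Fintype.card V) hn' X.card hXcard
        have h3 := hA v (hA' hv)
        have h4 : (dg F v : ℝ) + (((Fintype.card V - 1 - X.card).choose (k - 1) : ℕ) : ℝ) ≤
            (((Fintype.card V - 1).choose (k - 1) : ℕ) : ℝ) := by exact_mod_cast h1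
        linarith
      have heM : e ∉ M' := fun h => (disjoint_left.mp (hdis e h)) hve hv
      have hc1 : (A'.erase v).card = a := by
        rw [card_erase_of_mem hv, hcard]; omega
      have hc2 : (insert e M').card = M'.card + 1 := card_insert_of_notMem heM
      have hsum : (A'.erase v).card + (insert e M').card = A'.card + M'.card := by
        rw [hc1, hc2, hcard]; omega
      have heM' : ∀ e' ∈ M', Disjoint e e' := by
        intro e' he'
        refine heX.mono_right ?_
        intro x hx
        rw [hX, mem_union, mem_biUnion]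
        exact Or.inl ⟨e', he', hx⟩
      have h1 := ih (A'.erase v) ((erase_subset v A').trans hA') hc1 (insert e M') ?_ ?_ ?_ ?_
      · rw [hsum] at h1
        exact h1
      · intro e' he'
        rcases mem_insert.mp he' with rfl | he'
        · exact heF
        · exact hM' he'
      · intro e1 he1 e2 he2 hne
        rcases mem_insert.mp he1 with h11 | h11
        · rcases mem_insert.mp he2 with h22 | h22
          · exact absurd (h11.trans h22.symm) hne
          · rw [h11]
            exact heM' e2 h22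
        · rcases mem_insert.mp he2 with h22 | h22
          · rw [h22]
            exact (heM' e1 h11).symm
          · exact hMt e1 h11 e2 h22 hne
      · intro e' he'
        rcases mem_insert.mp he' with rfl | he'
        · refine heX.mono_right ?_
          intro x hx
          rw [hX, mem_union]
          exact Or.inr hx
        · exact (hdis e' he').mono_right (erase_subset v A')
      · have h2 : (((A'.erase v).card : ℝ) + ((insert e M').card : ℝ)) =
            (A'.card : ℝ) + (M'.card : ℝ) := by exact_mod_cast hsum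
        rw [h2]
        exact hbound
  intro M0 hM0 hMt hdis hbound
  exact key A.card A subset_rfl rfl M0 hM0 hMt hdis hbound

end Pool.Agent.W392.SAM.Ext
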